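import Mathlib

/-!
# Comparison and uniqueness for the mass equation without growth or uniform continuity

For `m_t + (m_ρ)_+^α m = 0` on the quadrant, every continuous viscosity subsolution lies below
every continuous viscosity supersolution with the same datum. Hence there is at most one viscosity
solution, for every continuous nondecreasing datum `m_0` with `m_0(0) = 0`.
-/

set_option autoImplicit false

open Filter Topology Set

namespace Pool.Agent.Results.MP_fe8c84_an.Comparison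

/-- `p` belongs to the Frechet superdifferential `D⁺f(x)` of `f : ℝ² → ℝ` at `x`:
`limsup_{y → x} (f(y) - f(x) - p·(y - x)) / |y - x| ≤ 0`. -/
def IsSuperdiff (f : ℝ → ℝ → ℝ) (x p : ℝ × ℝ) : Prop :=
  ∀ ε > 0, ∀ᶠ y in 𝓝 x,
    f y.1 y.2 - f x.1 x.2 - (p.1 * (y.1 - x.1) + p.2 * (y.2 - x.2)) ≤
      ε * Real.sqrt ((y.1 - x.1) ^ 2 + (y.2 - x.2) ^ 2)

/-- `p` belongs to the Frechet subdifferential `D⁻f(x)` of `f : ℝ² → ℝ` at `x`:
`liminf_{y → x} (f(y) - f(x) - p·(y - x)) / |y - x| ≥ 0`. -/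
def IsSubdiff (f : ℝ → ℝ → ℝ) (x p : ℝ × ℝ) : Prop :=
  ∀ ε > 0, ∀ᶠ y in 𝓝 x,
    - (ε * Real.sqrt ((y.1 - x.1) ^ 2 + (y.2 - x.2) ^ 2)) ≤
      f y.1 y.2 - f x.1 x.2 - (p.1 * (y.1 - x.1) + p.2 * (y.2 - x.2))

/-- `m` is continuous on the closed quadrant `[0, ∞)²`. -/
def ContQuadrant (m : ℝ → ℝ → ℝ) : Prop :=
  ContinuousOn (fun x : ℝ × ℝ => m x.1 x.2) (Ici 0 ×ˢ Ici 0)

/-- Viscosity subsolutions of `m_t + (m_ρ)_+^α m = 0`, `m(0,·) = m₀`, `m(·,0) = 0`. -/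
def IsSubsolution (α : ℝ) (m₀ : ℝ → ℝ) (m : ℝ → ℝ → ℝ) : Prop :=
  ContQuadrant m ∧
  (∀ t ρ, 0 < t → 0 < ρ → ∀ p : ℝ × ℝ, IsSuperdiff m (t, ρ) p →
    p.1 + (max p.2 0) ^ α * m t ρ ≤ 0) ∧
  (∀ ρ, 0 ≤ ρ → m 0 ρ ≤ m₀ ρ) ∧ (∀ t, 0 ≤ t → m t 0 ≤ 0)

/-- Viscosity supersolutions of `m_t + (m_ρ)_+^α m = 0`, `m(0,·) = m₀`, `m(·,0) = 0`. -/
def IsSupersolution (α : ℝ) (m₀ : ℝ → ℝ) (m : ℝ → ℝ → ℝ) : Prop :=
  ContQuadrant m ∧
  (∀ t ρ, 0 < t → 0 < ρ → ∀ p : ℝ × ℝ, IsSubdiff m (t, ρ) p →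
    0 ≤ p.1 + (max p.2 0) ^ α * m t ρ) ∧
  (∀ ρ, 0 ≤ ρ → m₀ ρ ≤ m 0 ρ) ∧ (∀ t, 0 ≤ t → 0 ≤ m t 0)

/-- Viscosity solutions. -/
def IsSolution (α : ℝ) (m₀ : ℝ → ℝ) (m : ℝ → ℝ → ℝ) : Prop :=
  IsSubsolution α m₀ m ∧ IsSupersolution α m₀ m

section aux

lemma le_sqrt1 (u v : ℝ) : |u| ≤ Real.sqrt (u ^ 2 + v ^ 2) := by
  apply Real.le_sqrt_of_sq_le
  rw [sq_abs]; nlinarith [sq_nonneg v]

lemma le_sqrt2 (u v : ℝ) : |v| ≤ Real.sqrt (u ^ 2 + v ^ 2) := by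
  apply Real.le_sqrt_of_sq_le
  rw [sq_abs]; nlinarith [sq_nonneg u]

lemma deriv_est {a : ℝ → ℝ} {a' t : ℝ} (h : HasDerivAt a a' t) {ε : ℝ} (hε : 0 < ε) :
    ∀ᶠ y in 𝓝 t, |a y - a t - a' * (y - t)| ≤ ε * |y - t| := by
  have h1 := (hasDerivAt_iff_isLittleO.1 h).def hε
  filter_upwards [h1] with y hy
  have : a y - a t - a' * (y - t) = a y - a t - (y - t) • a' := by simp [mul_comm]
  rw [this]
  simpa [Real.norm_eq_abs] using hy

lemma superdiff_of_max {f : ℝ → ℝ → ℝ} {a b : ℝ → ℝ} {a' b' : ℝ} {x : ℝ × ℝ}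
    (ha : HasDerivAt a a' x.1) (hb : HasDerivAt b b' x.2)
    (h : ∀ᶠ y in 𝓝 x, f y.1 y.2 - a y.1 - b y.2 ≤ f x.1 x.2 - a x.1 - b x.2) :
    IsSuperdiff f x (a', b') := by
  intro ε hε
  have e1 := (deriv_est ha (half_pos hε))
  have e2 := (deriv_est hb (half_pos hε))
  have f1 : ∀ᶠ y in 𝓝 x, |a y.1 - a x.1 - a' * (y.1 - x.1)| ≤ ε / 2 * |y.1 - x.1| :=
    (continuous_fst.continuousAt (x := x)).eventually e1
  have f2 : ∀ᶠ y in 𝓝 x, |b y.2 - b x.2 - b' * (y.2 - x.2)| ≤ ε / 2 * |y.2 - x.2| :=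
    (continuous_snd.continuousAt (x := x)).eventually e2
  filter_upwards [h, f1, f2] with y hy g1 g2
  have s1 := le_sqrt1 (y.1 - x.1) (y.2 - x.2)
  have s2 := le_sqrt2 (y.1 - x.1) (y.2 - x.2)
  have g1' := (abs_le.1 g1).2
  have g2' := (abs_le.1 g2).2
  have k1 := mul_le_mul_of_nonneg_left s1 (half_pos hε).le
  have k2 := mul_le_mul_of_nonneg_left s2 (half_pos hε).le
  linarith

lemma subdiff_of_min {f : ℝ → ℝ → ℝ} {a b : ℝ → ℝ} {a' b' : ℝ} {x : ℝ × ℝ}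
    (ha : HasDerivAt a a' x.1) (hb : HasDerivAt b b' x.2)
    (h : ∀ᶠ y in 𝓝 x, f x.1 x.2 - a x.1 - b x.2 ≤ f y.1 y.2 - a y.1 - b y.2) :
    IsSubdiff f x (a', b') := by
  intro ε hε
  have e1 := (deriv_est ha (half_pos hε))
  have e2 := (deriv_est hb (half_pos hε))
  have f1 : ∀ᶠ y in 𝓝 x, |a y.1 - a x.1 - a' * (y.1 - x.1)| ≤ ε / 2 * |y.1 - x.1| :=
    (continuous_fst.continuousAt (x := x)).eventually e1
  have f2 : ∀ᶠ y in 𝓝 x, |b y.2 - b x.2 - b' * (y.2 - x.2)| ≤ ε / 2 * |y.2 - x.2| :=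
    (continuous_snd.continuousAt (x := x)).eventually e2
  filter_upwards [h, f1, f2] with y hy g1 g2
  have s1 := le_sqrt1 (y.1 - x.1) (y.2 - x.2)
  have s2 := le_sqrt2 (y.1 - x.1) (y.2 - x.2)
  have g1' := (abs_le.1 g1).1
  have g2' := (abs_le.1 g2).1
  have k1 := mul_le_mul_of_nonneg_left s1 (half_pos hε).le
  have k2 := mul_le_mul_of_nonneg_left s2 (half_pos hε).le
  linarith

lemma core {α : ℝ} (hα : 0 < α) {m₀ : ℝ → ℝ} {m M : ℝ → ℝ → ℝ} (hm : IsSubsolution α m₀ m)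
    (hM : IsSupersolution α m₀ M)
    (hpos : ∀ t ρ s η, 0 ≤ t → 0 ≤ ρ → 0 ≤ s → 0 ≤ η → M s η < m t ρ → 0 ≤ m t ρ)
    {t0 ρ0 : ℝ} (ht0 : 0 ≤ t0) (hρ0 : 0 ≤ ρ0) : m t0 ρ0 ≤ M t0 ρ0 := by
  by_contra hcon
  obtain ⟨hmc, hmv, hm0, hmb⟩ := hm
  obtain ⟨hMc, hMv, hM0, hMb⟩ := hM
  set σ := m t0 ρ0 - M t0 ρ0 with hσ
  have hσ0 : 0 < σ := by simp only [hσ]; linarith [not_le.1 hcon]
  set T := t0 + 1 with hT
  set R := ρ0 + 1 with hR
  set l := σ / 4 with hl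
  have hl0 : 0 < l := by simp only [hl]; linarith
  have hlne : l ≠ 0 := hl0.ne'
  set K1 : Set (ℝ × ℝ) := Icc 0 (T + 1) ×ˢ Icc 0 (R + 1) with hK1
  have hK1c : IsCompact K1 := isCompact_Icc.prod isCompact_Icc
  have hK1s : K1 ⊆ Ici 0 ×ˢ Ici 0 := fun x hx => ⟨hx.1.1, hx.2.1⟩
  have cm : ContinuousOn (fun x : ℝ × ℝ => m x.1 x.2) K1 := hmc.mono hK1s
  have cM : ContinuousOn (fun x : ℝ × ℝ => M x.1 x.2) K1 := hMc.mono hK1s
  obtain ⟨Bm, hBm⟩ := hK1c.exists_bound_of_continuousOn cm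
  obtain ⟨BM, hBM⟩ := hK1c.exists_bound_of_continuousOn cM
  have hx0 : (t0, ρ0) ∈ K1 := ⟨⟨ht0, by simp only [hT]; linarith⟩, ⟨hρ0, by simp only [hR]; linarith⟩⟩
  have hBm0 : 0 ≤ Bm := (norm_nonneg _).trans (hBm _ hx0)
  have hBM0 : 0 ≤ BM := (norm_nonneg _).trans (hBM _ hx0)
  set B := Bm + BM + 1 with hB
  have hB0 : 0 < B := by simp only [hB]; linarith
  have hσB : σ ≤ B := by
    have a1 := (abs_le.1 (hBm _ hx0)).2
    have a2 := (abs_le.1 (hBM _ hx0)).1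
    simp only at a1 a2
    simp only [hσ, hB]; linarith
  have hlB : l / (B + 1) < 1 := by
    rw [div_lt_one (by linarith)]
    simp only [hl]; linarith
  have hlB0 : 0 < l / (B + 1) := by positivity
  set T' := T - l / (B + 1) with hT'
  set R' := R - l / (B + 1) with hR'
  -- uniform continuity
  have um := hK1c.uniformContinuousOn_of_continuous cm
  have uM := hK1c.uniformContinuousOn_of_continuous cM
  rw [Metric.uniformContinuousOn_iff] at um uM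
  obtain ⟨κ1, hκ1, um⟩ := um (σ / 4) (by linarith)
  obtain ⟨κ2, hκ2, uM⟩ := uM (σ / 4) (by linarith)
  set κ := min (min κ1 κ2) 1 with hκ
  have hκ0 : 0 < κ := lt_min (lt_min hκ1 hκ2) one_pos
  set ε := κ ^ 2 / (4 * B) with hε
  have hε0 : 0 < ε := by positivity
  set Ψ : (ℝ × ℝ) × (ℝ × ℝ) → ℝ := fun z => m z.1.1 z.1.2 - M z.2.1 z.2.2 -
    ((z.1.1 - z.2.1) ^ 2 + (z.1.2 - z.2.2) ^ 2) / (2 * ε) - l / (T - z.1.1) - l / (R - z.1.2) with hΨ
  set K : Set ((ℝ × ℝ) × (ℝ × ℝ)) := (Icc 0 T' ×ˢ Icc 0 R') ×ˢ K1 with hK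
  have hKc : IsCompact K := (isCompact_Icc.prod isCompact_Icc).prod hK1c
  have hsub1 : ∀ z ∈ K, z.1 ∈ K1 := by
    intro z hz
    refine ⟨⟨hz.1.1.1, hz.1.1.2.trans ?_⟩, ⟨hz.1.2.1, hz.1.2.2.trans ?_⟩⟩
    · simp only [hT']; linarith
    · simp only [hR']; linarith
  have hTz : ∀ z ∈ K, 0 < T - z.1.1 := fun z hz => by
    have := hz.1.1.2
    simp only [hT'] at this; linarith
  have hRz : ∀ z ∈ K, 0 < R - z.1.2 := fun z hz => by
    have := hz.1.2.2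
    simp only [hR'] at this; linarith
  have hΨc : ContinuousOn Ψ K := by
    have c1 : ContinuousOn (fun z : (ℝ × ℝ) × (ℝ × ℝ) => m z.1.1 z.1.2) K :=
      cm.comp continuousOn_fst hsub1
    have c2 : ContinuousOn (fun z : (ℝ × ℝ) × (ℝ × ℝ) => M z.2.1 z.2.2) K :=
      cM.comp continuousOn_snd (fun z hz => hz.2)
    have c3 : ContinuousOn (fun z : (ℝ × ℝ) × (ℝ × ℝ) =>
      ((z.1.1 - z.2.1) ^ 2 + (z.1.2 - z.2.2) ^ 2) / (2 * ε)) K := by
      apply Continuous.continuousOn; fun_prop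
    have c4 : ContinuousOn (fun z : (ℝ × ℝ) × (ℝ × ℝ) => l / (T - z.1.1)) K :=
      continuousOn_const.div (by fun_prop) fun z hz => (hTz z hz).ne'
    have c5 : ContinuousOn (fun z : (ℝ × ℝ) × (ℝ × ℝ) => l / (R - z.1.2)) K :=
      continuousOn_const.div (by fun_prop) fun z hz => (hRz z hz).ne'
    exact (((c1.sub c2).sub c3).sub c4).sub c5
  have hz0 : (((t0, ρ0), (t0, ρ0)) : (ℝ × ℝ) × (ℝ × ℝ)) ∈ K := by
    refine ⟨⟨⟨ht0, ?_⟩, ⟨hρ0, ?_⟩⟩, hx0⟩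
    · simp only [hT', hT]; linarith
    · simp only [hR', hR]; linarith
  obtain ⟨P, hPK, hPmax⟩ := hKc.exists_isMaxOn ⟨_, hz0⟩ hΨc
  have hΨ0 : σ / 2 ≤ Ψ P := by
    have h1 := hPmax hz0
    have h2 : Ψ ((t0, ρ0), (t0, ρ0)) = σ / 2 := by
      simp only [hΨ, hT, hR, hl, hσ]
      ring
    simp only [mem_ofPred_eq] at h1
    rw [h2] at h1
    exact h1
  obtain ⟨⟨t, ρ⟩, ⟨s, η⟩⟩ := P
  have ht : 0 ≤ t ∧ t ≤ T' := hPK.1.1
  have hρ : 0 ≤ ρ ∧ ρ ≤ R' := hPK.1.2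
  have hs : 0 ≤ s ∧ s ≤ T + 1 := hPK.2.1
  have hη : 0 ≤ η ∧ η ≤ R + 1 := hPK.2.2
  have hTt : 0 < T - t := hTz _ hPK
  have hRr : 0 < R - ρ := hRz _ hPK
  have hx1 : (t, ρ) ∈ K1 := hsub1 _ hPK
  have hx2 : (s, η) ∈ K1 := hPK.2
  have hbound : m t ρ - M s η ≤ B - 1 := by
    have a1 := (abs_le.1 (hBm _ hx1)).2
    have a2 := (abs_le.1 (hBM _ hx2)).1
    simp only at a1 a2
    simp only [hB]; linarith
  have q0 : 0 ≤ ((t - s) ^ 2 + (ρ - η) ^ 2) / (2 * ε) := by positivity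
  have q1 : 0 ≤ l / (T - t) := by positivity
  have q2 : 0 ≤ l / (R - ρ) := by positivity
  have hval : σ / 2 ≤ m t ρ - M s η - ((t - s) ^ 2 + (ρ - η) ^ 2) / (2 * ε) - l / (T - t) -
    l / (R - ρ) := hΨ0
  have htT : t < T' := by
    refine lt_of_le_of_ne ht.2 fun h => ?_
    have : l / (T - t) = B + 1 := by
      rw [h]; simp only [hT']
      rw [sub_sub_cancel]
      field_simp
    rw [this] at hval
    linarith
  have hρR : ρ < R' := by
    refine lt_of_le_of_ne hρ.2 fun h => ?_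
    have : l / (R - ρ) = B + 1 := by
      rw [h]; simp only [hR']
      rw [sub_sub_cancel]
      field_simp
    rw [this] at hval
    linarith
  have hdist2 : (t - s) ^ 2 + (ρ - η) ^ 2 < κ ^ 2 := by
    have h1 : ((t - s) ^ 2 + (ρ - η) ^ 2) / (2 * ε) ≤ B := by linarith
    rw [div_le_iff₀ (by positivity)] at h1
    have h2 : B * (2 * ε) = κ ^ 2 / 2 := by
      simp only [hε]; field_simp; ring
    rw [h2] at h1
    have : 0 < κ ^ 2 := by positivity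
    linarith
  have hts : |t - s| < κ := by
    apply abs_lt_of_sq_lt_sq _ hκ0.le
    nlinarith [sq_nonneg (ρ - η)]
  have hρη : |ρ - η| < κ := by
    apply abs_lt_of_sq_lt_sq _ hκ0.le
    nlinarith [sq_nonneg (t - s)]
  have hκ' : κ ≤ κ1 ∧ κ ≤ κ2 ∧ κ ≤ 1 :=
    ⟨(min_le_left _ _).trans (min_le_left _ _), (min_le_left _ _).trans (min_le_right _ _),
      min_le_right _ _⟩
  have hdd : dist (t, ρ) (s, η) < κ := by
    rw [Prod.dist_eq, max_lt_iff]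
    exact ⟨by rw [Real.dist_eq]; exact hts, by rw [Real.dist_eq]; exact hρη⟩
  -- interior
  have ht_pos : 0 < t := by
    refine lt_of_le_of_ne ht.1 fun h => ?_
    have h1 := uM (t, ρ) hx1 (s, η) hx2 (hdd.trans_le hκ'.2.1)
    rw [Real.dist_eq, abs_lt] at h1
    simp only at h1
    have h2 := hm0 ρ hρ.1
    have h3 := hM0 ρ hρ.1
    rw [h] at h2 h3
    linarith [h1.1, h1.2]
  have hρ_pos : 0 < ρ := by
    refine lt_of_le_of_ne hρ.1 fun h => ?_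
    have h1 := uM (t, ρ) hx1 (s, η) hx2 (hdd.trans_le hκ'.2.1)
    rw [Real.dist_eq, abs_lt] at h1
    simp only at h1
    have h2 := hmb t ht.1
    have h3 := hMb t ht.1
    rw [h] at h2 h3
    linarith [h1.1, h1.2]
  have hs_pos : 0 < s := by
    refine lt_of_le_of_ne hs.1 fun h => ?_
    have h1 := um (t, ρ) hx1 (s, η) hx2 (hdd.trans_le hκ'.1)
    rw [Real.dist_eq, abs_lt] at h1
    simp only at h1
    have h2 := hm0 η hη.1
    have h3 := hM0 η hη.1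
    rw [h] at h2 h3
    linarith [h1.1, h1.2]
  have hη_pos : 0 < η := by
    refine lt_of_le_of_ne hη.1 fun h => ?_
    have h1 := um (t, ρ) hx1 (s, η) hx2 (hdd.trans_le hκ'.1)
    rw [Real.dist_eq, abs_lt] at h1
    simp only at h1
    have h2 := hmb s hs.1
    have h3 := hMb s hs.1
    rw [h] at h2 h3
    linarith [h1.1, h1.2]
  have hs_lt : s < T + 1 := by
    have := (abs_lt.1 hts).1
    simp only [hT'] at htT
    linarith [hκ'.2.2]
  have hη_lt : η < R + 1 := by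
    have := (abs_lt.1 hρη).1
    simp only [hR'] at hρR
    linarith [hκ'.2.2]
  -- superdifferential of `m`
  have ha : HasDerivAt (fun y => (y - s) ^ 2 / (2 * ε) + l / (T - y)) ((t - s) / ε + l / (T - t) ^ 2) t := by
    have e1 := (((hasDerivAt_id t).sub_const s).pow 2).div_const (2 * ε)
    have e2 := (hasDerivAt_const t l).div ((hasDerivAt_id t).const_sub T) hTt.ne'
    refine (e1.add e2).congr_deriv ?_
    simp only [id]
    field_simp
    ring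
  have hb : HasDerivAt (fun y => (y - η) ^ 2 / (2 * ε) + l / (R - y)) ((ρ - η) / ε + l / (R - ρ) ^ 2) ρ := by
    have e1 := (((hasDerivAt_id ρ).sub_const η).pow 2).div_const (2 * ε)
    have e2 := (hasDerivAt_const ρ l).div ((hasDerivAt_id ρ).const_sub R) hRr.ne'
    refine (e1.add e2).congr_deriv ?_
    simp only [id]
    field_simp
    ring
  have hsup : IsSuperdiff m (t, ρ) ((t - s) / ε + l / (T - t) ^ 2, (ρ - η) / ε + l / (R - ρ) ^ 2) := by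
    apply superdiff_of_max (x := (t, ρ)) ha hb
    have n1 : ∀ᶠ y : ℝ × ℝ in 𝓝 (t, ρ), y ∈ Icc 0 T' ×ˢ Icc 0 R' :=
      prod_mem_nhds (Icc_mem_nhds ht_pos htT) (Icc_mem_nhds hρ_pos hρR)
    filter_upwards [n1] with y hy
    have h1 := hPmax (show ((y, (s, η)) : (ℝ × ℝ) × (ℝ × ℝ)) ∈ K from ⟨hy, hx2⟩)
    simp only [hΨ, mem_ofPred_eq] at h1
    have h2 : ∀ a b c d : ℝ, (a + b) / (2 * ε) = a / (2 * ε) + b / (2 * ε) := fun a b c d => by
      rw [add_div]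
    simp only [add_div] at h1
    linarith
  have hsubd : IsSubdiff M (s, η) ((t - s) / ε, (ρ - η) / ε) := by
    have ha' : HasDerivAt (fun y => -((t - y) ^ 2 / (2 * ε))) ((t - s) / ε) s := by
      have e1 := ((((hasDerivAt_id s).const_sub t).pow 2).div_const (2 * ε)).neg
      refine e1.congr_deriv ?_
      simp only [id]
      field_simp
      ring
    have hb' : HasDerivAt (fun y => -((ρ - y) ^ 2 / (2 * ε))) ((ρ - η) / ε) η := by
      have e1 := ((((hasDerivAt_id η).const_sub ρ).pow 2).div_const (2 * ε)).neg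
      refine e1.congr_deriv ?_
      simp only [id]
      field_simp
      ring
    apply subdiff_of_min (x := (s, η)) ha' hb'
    have n1 : ∀ᶠ y : ℝ × ℝ in 𝓝 (s, η), y ∈ K1 :=
      prod_mem_nhds (Icc_mem_nhds hs_pos hs_lt) (Icc_mem_nhds hη_pos hη_lt)
    filter_upwards [n1] with y hy
    have h1 := hPmax (show (((t, ρ), y) : (ℝ × ℝ) × (ℝ × ℝ)) ∈ K from ⟨hPK.1, hy⟩)
    simp only [hΨ, mem_ofPred_eq, add_div] at h1
    linarith
  have i1 := hmv t ρ ht_pos hρ_pos _ hsup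
  have i2 := hMv s η hs_pos hη_pos _ hsubd
  simp only at i1 i2
  have hmM : M s η < m t ρ := by linarith
  have hm_pos := hpos t ρ s η ht.1 hρ.1 hs.1 hη.1 hmM
  have j1 : (max ((ρ - η) / ε) 0) ^ α ≤ (max ((ρ - η) / ε + l / (R - ρ) ^ 2) 0) ^ α := by
    apply Real.rpow_le_rpow (le_max_right _ _) _ hα.le
    apply max_le_max _ le_rfl
    have : 0 ≤ l / (R - ρ) ^ 2 := by positivity
    linarith
  have j0 : 0 ≤ (max ((ρ - η) / ε) 0) ^ α := Real.rpow_nonneg (le_max_right _ _) _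
  have j2 := mul_le_mul_of_nonneg_right j1 hm_pos
  have j3 := mul_le_mul_of_nonneg_left hmM.le j0
  have j4 : 0 < l / (T - t) ^ 2 := by positivity
  linarith

end aux

/-- Comparison principle, with no growth or uniform continuity assumption. -/
theorem comparison {α : ℝ} (hα : 0 < α) {m₀ : ℝ → ℝ} (h₀ : ∀ ρ, 0 ≤ ρ → 0 ≤ m₀ ρ)
    {m M : ℝ → ℝ → ℝ} (hm : IsSubsolution α m₀ m) (hM : IsSupersolution α m₀ M) {t ρ : ℝ}
    (ht : 0 ≤ t) (hρ : 0 ≤ ρ) : m t ρ ≤ M t ρ := by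
  have hM0 : ∀ t ρ, 0 ≤ t → 0 ≤ ρ → 0 ≤ M t ρ := by
    intro t ρ ht hρ
    have hz : IsSubsolution α m₀ (fun _ _ => 0) := by
      refine ⟨continuousOn_const, ?_, h₀, fun _ _ => le_rfl⟩
      intro t ρ _ _ p hp
      simp only [mul_zero, add_zero]
      -- the first component of a supergradient of zero vanishes
      by_contra hcon
      have hp1 : 0 < p.1 := not_le.1 hcon
      have h1 := hp (p.1 / 2) (half_pos hp1)
      have h2 : Tendsto (fun r : ℝ => ((t - r, ρ) : ℝ × ℝ)) (𝓝[>] 0) (𝓝 (t, ρ)) := by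
        have : Continuous fun r : ℝ => ((t - r, ρ) : ℝ × ℝ) := by fun_prop
        have := this.tendsto 0
        simp only [sub_zero] at this
        exact this.mono_left nhdsWithin_le_nhds
      have h3 := h2.eventually h1
      obtain ⟨r, hr, hr0⟩ := (h3.and self_mem_nhdsWithin).exists
      have hr0' : 0 < r := hr0
      simp only [sub_self, mul_zero, add_zero, zero_sub] at hr
      rw [show t - r - t = -r by ring] at hr
      have : Real.sqrt ((-r) ^ 2 + 0 ^ 2) = r := by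
        rw [show (-r) ^ 2 + (0:ℝ) ^ 2 = r ^ 2 by ring, Real.sqrt_sq hr0'.le]
      rw [this] at hr
      nlinarith
    exact core hα hz hM (fun _ _ _ _ _ _ _ _ _ => le_rfl) ht hρ
  exact core hα hm hM (fun t ρ s η _ _ hs hη h => ((hM0 s η hs hη).trans h.le)) ht hρ

/-- The mass equation has at most one viscosity solution, for every exponent `α > 0` and every
datum `m₀ ≥ 0`; more generally, subsolutions lie below supersolutions. This includes the case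
`0 < α < 1`, `m₀` continuous and nondecreasing with `m₀(0) = 0`. -/
theorem result (α : ℝ) (hα : 0 < α) (m₀ : ℝ → ℝ) (h₀ : ∀ ρ, 0 ≤ ρ → 0 ≤ m₀ ρ) :
    (∀ m M : ℝ → ℝ → ℝ, IsSubsolution α m₀ m → IsSupersolution α m₀ M →
      ∀ t ρ, 0 ≤ t → 0 ≤ ρ → m t ρ ≤ M t ρ) ∧
    (∀ m₁ m₂ : ℝ → ℝ → ℝ, IsSolution α m₀ m₁ → IsSolution α m₀ m₂ →
      ∀ t ρ, 0 ≤ t → 0 ≤ ρ → m₁ t ρ = m₂ t ρ) := by
  refine ⟨fun m M hm hM t ρ ht hρ => comparison hα h₀ hm hM ht hρ, ?_⟩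
  intro m₁ m₂ h1 h2 t ρ ht hρ
  exact le_antisymm (comparison hα h₀ h1.1 h2.2 ht hρ) (comparison hα h₀ h2.1 h1.2 ht hρ)

end Pool.Agent.Results.MP_fe8c84_an.Comparison
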